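import Mathlib
import Pool.Agent.MP_faa29e_an.Descr

open Pool.Agent.MP_faa29e_an

namespace Pool.Agent.Results.MP_faa29e_an.DescriptionTfae

/-- Exact description of the Laurent coefficient body of the annulus: membership is equivalent to
being a shrunk coefficient vector of an extremal function, to a family of linear inequalities,
and to a family of Toeplitz norm conditions. -/
theorem result (r : ℝ) (hr0 : 0 < r) (hr1 : r < 1) (N : ℕ) (v : Fin (2 * N + 1) → ℂ) :
    List.TFAE [v ∈ body r N,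
      ∃ s ∈ Set.Icc (0 : ℝ) 1, ∃ f, Bd r f ∧ (TypeI r N f ∨ TypeII r N f ∨ TypeIII r N f) ∧
        v = s • coeffVec r N f,
      ∀ (c : Fin (2 * N + 1) → ℂ) (t : Finset ℤ) (b : ℤ → ℂ), (∑ j, c j * v j.rev).re ≤
        Real.circleAverage (fun z : ℂ => ‖lpoly N c z - ∑ k ∈ t, b k * z ^ k‖) 0 1 +
          Real.circleAverage (fun z : ℂ => ‖∑ k ∈ t, b k * z ^ k‖) 0 r,
      ∀ M : ℕ, v ∈ shadow r N M] := by
  tfae_have 1 → 2 := fun h => by
    obtain ⟨s, hs, w, hw, rfl⟩ := exists_scaled hr0 hr1 h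
    obtain ⟨f, hf, rfl⟩ := (isClosed_body hr0 hr1 N).frontier_subset hw
    exact ⟨s, hs, f, hf, (extremal_iff hr0 hr1 hf).1 hw, rfl⟩
  tfae_have 2 → 1 := by
    rintro ⟨s, hs, f, hf, -, rfl⟩
    exact (convex_body hr0 hr1 N).smul_mem_of_zero_mem
      (interior_subset (zero_mem_interior_body hr0 hr1 N)) ⟨f, hf, rfl⟩ hs
  tfae_have 1 ↔ 3 := ⟨dual_le hr0 hr1, mem_body_of_dual hr0 hr1⟩
  tfae_have 1 ↔ 4 := ⟨fun h M => body_subset_shadow hr0 hr1 N M h, mem_body_of_shadow hr0 hr1⟩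
  tfae_finish

end Pool.Agent.Results.MP_faa29e_an.DescriptionTfae
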