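import Mathlib
import Pool.Agent.MP_faa29e_an.Types

open Pool.Agent.MP_faa29e_an

namespace Pool.Agent.Results.MP_faa29e_an.Extremal

/-- Every boundary point of the Laurent coefficient body of the annulus is attained by exactly one
function of the class, and the extremal functions are exactly those of the three kinds. -/
theorem result (r : ℝ) (hr0 : 0 < r) (hr1 : r < 1) (N : ℕ) :
    (∀ v ∈ frontier (body r N), ∃ f, Bd r f ∧ coeffVec r N f = v ∧
      ∀ g, Bd r g → coeffVec r N g = v → ∀ z ∈ ann r 1, g z = f z) ∧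
    ∀ f, Bd r f →
      (coeffVec r N f ∈ frontier (body r N) ↔ TypeI r N f ∨ TypeII r N f ∨ TypeIII r N f) := by
  refine ⟨fun v hv => ?_, fun f hf => extremal_iff hr0 hr1 hf⟩
  obtain ⟨f, hf, rfl⟩ := (isClosed_body hr0 hr1 N).frontier_subset hv
  exact ⟨f, hf, rfl, fun g hg he z hz => frontier_unique hr0 hr1 hf hg hv he hz⟩

end Pool.Agent.Results.MP_faa29e_an.Extremal
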