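import Mathlib
import Pool.Agent.MP_faa29e_an.NonAlg

open Pool.Agent.MP_faa29e_an

namespace Pool.Agent.Results.MP_faa29e_an.NotSemialgebraic

/-- For `N ≥ 1` the Laurent coefficient body of the annulus is not a semialgebraic set. -/
theorem result (r : ℝ) (hr0 : 0 < r) (hr1 : r < 1) (N : ℕ) (hN : 1 ≤ N) :
    ¬IsSemialg (body r N) :=
  not_semialg hr0 hr1 hN

end Pool.Agent.Results.MP_faa29e_an.NotSemialgebraic
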