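import Mathlib
import Pool.Agent.MP_faa29e_an.Degree

open Pool.Agent.MP_faa29e_an

namespace Pool.Agent.Results.MP_faa29e_an.UnboundedDegree

/-- For `N ≥ 1` the extremal functions of the Laurent coefficient body of the annulus include
theta products with arbitrarily many zeros in the annulus. -/
theorem result (r : ℝ) (hr0 : 0 < r) (hr1 : r < 1) (N : ℕ) (hN : 1 ≤ N) (D : ℕ) :
    ∃ (κ : ℂ) (m : ℤ) (a : Multiset ℂ), BlaData r κ m a ∧ D ≤ a.card ∧ Bd r (bla r κ m a) ∧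
      coeffVec r N (bla r κ m a) ∈ frontier (body r N) ∧
      ∃ H : ℂ → ℂ, DifferentiableOn ℂ H (ann r 1) ∧ ∀ z ∈ ann r 1,
        H z ≠ 0 ∧ bla r κ m a z = (a.map fun w => z - w).prod * H z := by
  obtain ⟨κ, m, a, h1, h2, h3, h4⟩ := unbounded_degree hr0 hr1 hN D
  obtain ⟨H, a1, a2, a3, -⟩ := bla_facts hr0 hr1 h1
  exact ⟨κ, m, a, h1, h2, h3, h4, H, a1.differentiableOn.mono (ann_subset_cann _ _),
    fun z hz => ⟨a2 z (ann_subset_cann _ _ hz), a3 z⟩⟩

end Pool.Agent.Results.MP_faa29e_an.UnboundedDegree
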